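import Pool.Agent.TH128.SYZ.Main

set_option autoImplicit false

/-!
# Primitive symplectic fourfolds with a nontrivial movable line bundle that defines no fibration

For arbitrary elliptic curves `E₁`, `E₂` there is a primitive symplectic variety `X` of dimension `4`,
a quotient of a torus isogenous to `E₁² × E₂²` by the dihedral group `D₄` of order `8`, and
a nontrivial (not isomorphic to `O_X`) line bundle `L` on `X` whose class in `H²(X, ℝ)` is zero,
so that `L` is nef, movable and `q_X(L) = 0`, such that no power of `L` has two linearly
independent sections. So no power of `L` defines a rational map to a variety of positive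
dimension, and the statement Q1 is not true as it is worded, for all nontrivial movable `L` with
`q_X(L) = 0`. Here `L²` is trivial, and `X` has fundamental group of order two. What remains open is
Q1 for the line bundles `L` whose class in `H²(X, ℚ)` is not zero. Smooth holomorphic symplectic
manifolds are simply connected, so this phenomenon only exists for singular primitive
symplectic varieties.

The example: let `M = ℤ ω₁ + ℤ ω₂`, `N = ℤ η₁ + ℤ η₂` be lattices in `ℂ`.  The group `D₄` acts on
`V = W ⊕ W`, `W = ℂ²`, by signed permutations of the two summands. The only invariant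
`2`-forms are the multiples of the sum of the symplectic forms of the summands. Let `Λ` be the
lattice of all `((x₁, y₁), (x₂, y₂))` with `x₁, x₂ ∈ M`, `y₁, y₂ ∈ N` and `y₁ + y₂ ∈ 2 N`, and `t` the
vector `((ω₁ / 2, η₁), (ω₁ / 2, 0))`.  Then `2 t ∈ Λ`, and `t` is invariant modulo `Λ` under `D₄`.
Let `Γ` be the group of the transformations `v ↦ g v + b` with `g ∈ D₄` a rotation and
`b ∈ Λ`, or `g` a reflection and `b ∈ t + Λ`. The latter transformations have no fixed points, so
the character of `Γ` with kernel the subgroup of the transformations with a rotation as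
linear part defines a line bundle `L` on `X = V / Γ`.

The framework is that of the starting files: `latt`, `IsPrimitiveSymplectic`,
`LineBundle`, `LineBundle.pow`, `LineBundle.IsSection` and `LineBundle.IsTrivial` are defined in
`Pool.Agent.W594.SYZ.Defs2`; `IsChernForm` in `Pool.Agent.W594.SYZ.TQDefs`; `V4`, `lat`,
`LattBetween` and `fixIndex` in `Pool.Agent.TH128.SYZ.Defs`.
-/

namespace Pool.Agent.Results.MP_e4ecdb_ag.TorsionBundle

open Pool.Agent.W594.SYZ2 Pool.Agent.TH128.SYZ

/-- For all lattices `M`, `N` in `ℂ` there are a primitive symplectic variety `X = V / Γ`, `V = ℂ⁴`,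
with translation lattice between `2 (M ⊕ N)²` and `(M ⊕ N)²`, such that the elements of `Γ` with a
fixed point generate a subgroup of index two (so the fundamental group of `X` is of order two, by
a theorem of Armstrong), and a line bundle `L` on `X` which is nontrivial, with `L²` trivial and
Chern form zero, such that any two sections of any power of `L` are linearly dependent. -/
theorem result (ω η : Module.Basis (Fin 2) ℝ ℂ) :
    ∃ (Γ : Subgroup (V4 ≃ᵃ[ℂ] V4)) (L : LineBundle Γ),
      LattBetween Γ ω η ∧ IsPrimitiveSymplectic Γ ∧ fixIndex Γ = 2 ∧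
      ¬ L.IsTrivial ∧ (L.pow 2).IsTrivial ∧ IsChernForm L (fun _ _ => 0) ∧
      ∀ (k : ℕ) (s s' : V4 → ℂ), (L.pow k).IsSection s → (L.pow k).IsSection s' → s ≠ 0 →
        ∃ c : ℂ, s' = c • s := by
  obtain ⟨Γ, L, h1, h2, h3, h4, h5, h6, h7⟩ := exists_torsion ω η
  refine ⟨Γ, L, h1, h2, h3, h4, h5, h6, fun k s s' hs hs' h0 => ⟨s' 0 / s 0, ?_⟩⟩
  have h8 : s 0 ≠ 0 := by
    intro h
    apply h0
    funext v
    rw [h7 k s hs v 0, h]
    rfl
  funext v
  rw [Pi.smul_apply, h7 k s hs v 0, h7 k s' hs' v 0, smul_eq_mul, div_mul_cancel₀ _ h8]

end Pool.Agent.Results.MP_e4ecdb_ag.TorsionBundle
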