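import Pool.Agent.TH128.SYZ.PsefConv

set_option autoImplicit false

/-!
# The rational SYZ conjecture for primitive symplectic quotients of complex tori

Let `X = V / Γ` be a primitive symplectic variety that is the quotient of a complex torus of any
dimension by any finite group, and let `L` be a movable line bundle on `X` with `q_X(L) = 0`, or,
more generally, a pseudo-effective line bundle with `q_X(L) = 0`: the closure of the movable cone is
contained in the (closed) cone of pseudo-effective classes. The theorem says that `L` is
nef, that `L` is torsion if and only if `c_1(L) = 0` in `H²(X, ℝ)`, and that otherwise `L` induces a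
Lagrangian fibration `X → B`, which is holomorphic. So the rational SYZ conjecture is true
for these `X` and all `L` which are not torsion.

The theorem in the starting files (for the SYZ conjecture MP_63735c_ag) is the case of nef
line bundles.  New here is that pseudo-effective line bundles are nef. The proof: let `φ = exp ψ`,
`ψ` a plurisubharmonic weight of a singular metric on `L` with positive curvature, and `H` the
Chern form of `L`. The function `φ(v) exp (- π H(v,v) - 2 Re F(v))` is invariant under `Γ` and upper
semicontinuous, hence bounded. If `H(u,u) < 0` for some `u`, it follows that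
`φ |exp g|` decays like `exp (π H(u,u) R²)` on the circles `x + R e^{i θ} u` for a suitable
holomorphic function `g`, and the submean value inequality shows `φ(x) = 0`, for all `x`. (The
converse, and that line bundles with a nonzero section are pseudo-effective, is proved in
`Pool.Agent.TH128.SYZ.PsefConv`.)

`latt`, `IsPrimitiveSymplectic`, `LineBundle`, `LineBundle.pow` and `LineBundle.IsTrivial` are
defined in `Pool.Agent.W594.SYZ.Defs2`; `IsChernForm`, `IsNefForm`, `IsDegenerateForm`,
`IsLagrangianFibration` and `Induces` in `Pool.Agent.W594.SYZ.TQDefs`; `IsLogPsh` and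
`IsPseudoEffective` in `Pool.Agent.TH128.SYZ.PsefDefs`.
-/

namespace Pool.Agent.Results.MP_e4ecdb_ag.TorusQuotients

open Pool.Agent.W594.SYZ2 Pool.Agent.TH128.SYZ

/-- Let `X = V / Γ` be a primitive symplectic torus quotient and `L` a line bundle on `X` with
Chern form `H` and `q_X(L) = 0`, that is, `H` is degenerate.  Then `L` is pseudo-effective if and
only if it is nef, and in this case `L` is torsion if and only if `H = 0`, and if `H ≠ 0` then `L`
induces a holomorphic Lagrangian fibration. -/
theorem result {V : Type*} [NormedAddCommGroup V] [NormedSpace ℂ V] [FiniteDimensional ℂ V]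
    (Γ : Subgroup (V ≃ᵃ[ℂ] V)) (hΓ : IsPrimitiveSymplectic Γ) (L : LineBundle Γ)
    (H : V → V → ℂ) (hc : IsChernForm L H) (hd : IsDegenerateForm H) :
    (IsPseudoEffective L ↔ IsNefForm H) ∧
    (IsPseudoEffective L →
      ((∀ v w, H v w = 0) ↔ ∃ m : ℕ, 1 ≤ m ∧ (L.pow m).IsTrivial) ∧
      ((∃ v w, H v w ≠ 0) → ∃ (n : ℕ) (Δ : Subgroup ((Fin n → ℂ) ≃ᵃ[ℂ] (Fin n → ℂ)))
        (π : V →ₗ[ℂ] (Fin n → ℂ)), (∀ v, π v = 0 ↔ ∀ w, H v w = 0) ∧
          IsLagrangianFibration Γ Δ π ∧ Induces L Δ π)) :=
  ⟨psef_iff_nef hΓ.torus hc, fun hp => TQ.main hΓ L H hc (nef_of_psef hΓ.torus hc hp) hd⟩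

end Pool.Agent.Results.MP_e4ecdb_ag.TorusQuotients
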